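import Pool.Agent.Helper19.HO.Defs

/-!
# Project HO (MP_19c155_gt): statements of the pieces.  Not imported by any result.
Hints in /team-store/HO_hints.md.
-/

open MeasureTheory Set Metric Filter Module
open scoped NNReal Topology RealInnerProductSpace ENNReal Real ContDiff Manifold

namespace Pool.Agent.Helper19.HO.Spec

/-! ## Part B: Borsuk-Ulam -/

/-! ### HO-1: parity of alternating facets -/

theorem altP_parity {k : ℕ} (l : Fin (k + 2) → ℤ) (hl : ∀ i j, l i ≠ -l j) :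
    ∑ i : Fin (k + 2), altP (l ∘ i.succAbove) = altP l + altP (-l) := sorry

/-! ### HO-2: subdivision commutes with the coboundary -/

theorem sd_cob {V : Type*} [AddCommGroup V] [Module ℝ V] {k : ℕ}
    (a : (Fin (k + 1) → V) → ZMod 2) : sd (cob a) = cob (sd a) := sorry

theorem sd_iterate_cob {V : Type*} [AddCommGroup V] [Module ℝ V] {k : ℕ}
    (a : (Fin (k + 1) → V) → ZMod 2) (N : ℕ) : sd^[N] (cob a) = cob (sd^[N] a) := sorry

theorem sd_iterate_add {V : Type*} [AddCommGroup V] [Module ℝ V] {k : ℕ}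
    (a a' : (Fin (k + 1) → V) → ZMod 2) (N : ℕ) :
    sd^[N] (fun v => a v + a' v) = fun v => (sd^[N] a) v + (sd^[N] a') v := sorry

theorem sd_iterate_neg {V : Type*} [AddCommGroup V] [Module ℝ V] {k : ℕ}
    (a : (Fin (k + 1) → V) → ZMod 2) (N : ℕ) :
    sd^[N] (fun v => a (-v)) = fun v => (sd^[N] a) (-v) := sorry

/-! ### HO-3: mesh of the subdivisions -/

theorem bary_mem {V : Type*} [AddCommGroup V] [Module ℝ V] {K : Set V} (hK : Convex ℝ K) {k : ℕ}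
    {v : Fin (k + 1) → V} (hv : ∀ i, v i ∈ K) (s : Equiv.Perm (Fin (k + 1))) (j : Fin (k + 1)) :
    bary v s j ∈ K := sorry

theorem dist_bary_le {V : Type*} [NormedAddCommGroup V] [NormedSpace ℝ V] {k : ℕ}
    {v : Fin (k + 1) → V} {D : ℝ} (hv : ∀ i j, dist (v i) (v j) ≤ D)
    (s : Equiv.Perm (Fin (k + 1))) (i j : Fin (k + 1)) :
    dist (bary v s i) (bary v s j) ≤ (k : ℝ) / (k + 1) * D := sorry

theorem sd_iterate_congr {V : Type*} [NormedAddCommGroup V] [NormedSpace ℝ V] {k : ℕ}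
    (a a' : (Fin (k + 1) → V) → ZMod 2) {K : Set V} (hK : Convex ℝ K) (N : ℕ) {D : ℝ}
    (h : ∀ w : Fin (k + 1) → V, (∀ i, w i ∈ K) →
      (∀ i j, dist (w i) (w j) ≤ ((k : ℝ) / (k + 1)) ^ N * D) → a w = a' w)
    {v : Fin (k + 1) → V} (hv : ∀ i, v i ∈ K) (hd : ∀ i j, dist (v i) (v j) ≤ D) :
    (sd^[N] a) v = (sd^[N] a') v := sorry

/-! ### HO-4: the recursion on the boundary of the cross-polytope -/

theorem sum_cp_succ {V : Type*} [AddCommGroup V] {k : ℕ} (e : ℕ → V)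
    (a : (Fin (k + 1) → V) → ZMod 2) (a' : (Fin (k + 2) → V) → ZMod 2)
    (h : ∀ ε : Fin (k + 2) → Bool, cob a (cp e ε) = a' (cp e ε) + a' (-cp e ε)) :
    ∑ ε : Fin (k + 2) → Bool, a' (cp e ε) = ∑ ε : Fin (k + 1) → Bool, a (cp e ε) := sorry

/-! ### HO-5: Borsuk-Ulam (uses HO-1 ... HO-4) -/

theorem borsuk_ulam {n : ℕ} (f : (Fin (n + 1) → ℝ) → (Fin n → ℝ)) (hf : ContinuousOn f {0}ᶜ)
    (hodd : ∀ y, y ≠ 0 → f (-y) = -f y) : ∃ y, y ≠ 0 ∧ f y = 0 := sorry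

/-! ### HO-6: odd nonvanishing maps are onto (uses HO-5) -/

theorem surj_of_odd {E : Type*} [NormedAddCommGroup E] [InnerProductSpace ℝ E]
    [FiniteDimensional ℝ E] {F : E → E} (hF : ContinuousOn F {0}ᶜ)
    (hom : ∀ (y : E) (t : ℝ), 0 < t → F (t • y) = t • F y) (hodd : ∀ y, F (-y) = -F y)
    (h0 : ∀ y, y ≠ 0 → F y ≠ 0) : ∀ z, z ≠ 0 → ∃ y, y ≠ 0 ∧ F y = z := sorry

/-! ## Part C: Crofton -/

section Crofton

variable {E H ι : Type*} [NormedAddCommGroup E] [InnerProductSpace ℝ E] [NormedAddCommGroup H]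
  [InnerProductSpace ℝ H] [Fintype ι] [FiniteDimensional ℝ E] [FiniteDimensional ℝ H]
  [MeasurableSpace E] [BorelSpace E]

/-! ### HO-7: almost every projection has no zero on the image -/

theorem ae_act_ne_zero (b : OrthonormalBasis ι ℝ H) {g : E → H} (hg : ContDiffOn ℝ 1 g {0}ᶜ)
    (hom : ∀ (y : E) (t : ℝ), 0 < t → g (t • y) = t • g y) (h0 : ∀ y, y ≠ 0 → g y ≠ 0) :
    ∀ᵐ p : PiLp 2 (fun _ : ι => E), ∀ y, y ≠ 0 → act b p (g y) ≠ 0 := sorry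

/-! ### HO-8: area formula with two sheets -/

omit [FiniteDimensional ℝ H] in
theorem ball_add_le [Nontrivial E] {F : E → E} (hF : ContDiffOn ℝ 1 F {0}ᶜ)
    (hs : ∀ z, z ≠ 0 → ∃ y, y ≠ 0 ∧ F y = z) {U₁ U₂ O : Set E} (hU₁ : IsOpen U₁) (hO : IsOpen O)
    (hOb : O ⊆ ball 0 1) (h01 : (0 : E) ∉ U₁) (h02 : (0 : E) ∉ U₂) (hd : Disjoint U₁ U₂)
    (h1 : O ⊆ F '' U₁) (h2 : O ⊆ F '' U₂) :
    volume (ball (0 : E) 1) + volume O
      ≤ ∫⁻ y, {y : E | ‖F y‖ < 1}.indicator (fun y => ENNReal.ofReal |(fderiv ℝ F y).det|) y := sorry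

/-! ### HO-9: Tonelli -/

theorem lintegral_Psi (b : OrthonormalBasis ι ℝ H) {g : E → H} (hg : ContDiffOn ℝ 1 g {0}ᶜ)
    (hom : ∀ (y : E) (t : ℝ), 0 < t → g (t • y) = t • g y) [Nontrivial E] :
    ∫⁻ y, Psi b (fderiv ℝ g y) y
      = ∫⁻ p : PiLp 2 (fun _ : ι => E), gw p * ∫⁻ y, {y : E | ‖act b p (g y)‖ < 1}.indicator
          (fun y => ENNReal.ofReal |(fderiv ℝ (fun y => act b p (g y)) y).det|) y := sorry

/-! ### HO-10: rotation invariance of the Gaussian weight -/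

theorem Psi_comp_left (b : OrthonormalBasis ι ℝ H) (U : H ≃ₗᵢ[ℝ] H) (D : E →L[ℝ] H) (y : E) :
    Psi b ((U : H →L[ℝ] H) ∘L D) y = Psi b D y := sorry

/-! ### HO-11: linear algebra of isometries -/

omit [MeasurableSpace E] [BorelSpace E] in
theorem exists_polar (D : E →L[ℝ] H) (hD : Function.Injective D) :
    ∃ (Q : E →ₗᵢ[ℝ] H) (S : E →L[ℝ] E), D = Q.toContinuousLinearMap ∘L S ∧ Jac D = |S.det| := sorry

omit [MeasurableSpace E] [BorelSpace E] in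
theorem exists_extend (Q Q₀ : E →ₗᵢ[ℝ] H) : ∃ U : H ≃ₗᵢ[ℝ] H, ∀ x, U (Q₀ x) = Q x := sorry

omit [MeasurableSpace E] [BorelSpace E] in
theorem Jac_of_not_injective (D : E →L[ℝ] H) (hD : ¬ Function.Injective D) : Jac D = 0 := sorry

omit [MeasurableSpace E] [BorelSpace E] in
theorem Jac_isometry (Q : E →ₗᵢ[ℝ] H) : Jac Q.toContinuousLinearMap = 1 := sorry

/-! ### HO-12: the kernel depends only on the Jacobian and `‖D y‖` (uses HO-10, HO-11) -/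

theorem Psi_eq (b : OrthonormalBasis ι ℝ H) (Q₀ : E →ₗᵢ[ℝ] H) (D : E →L[ℝ] H) (y w : E)
    (hw : ‖w‖ = ‖D y‖) :
    Psi b D y = ENNReal.ofReal (Jac D) * Psi b Q₀.toContinuousLinearMap w := sorry

/-! ### HO-13: polar coordinates (uses HO-12) -/

theorem lintegral_Psi_polar [Nontrivial E] (b : OrthonormalBasis ι ℝ H) {g : E → H} {R : ℝ}
    (hR : 0 < R) (hg : OddMap g R) (Q₀ : E →ₗᵢ[ℝ] H) {e₀ : E} (he : ‖e₀‖ = 1) :
    ∫⁻ y, Psi b (fderiv ℝ g y) y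
      = (∫⁻ u : sphere (0 : E) 1, ENNReal.ofReal (Jac (fderiv ℝ g u))
            ∂(volume : Measure E).toSphere)
        * (ENNReal.ofReal (R ^ finrank ℝ E)⁻¹
          * ∫⁻ r in Ioi (0 : ℝ), ENNReal.ofReal (r ^ (finrank ℝ E - 1))
              * Psi b Q₀.toContinuousLinearMap (r • e₀)) := sorry

/-! ### HO-14: the linear case -/

theorem lintegral_Psi_isometry_le (b : OrthonormalBasis ι ℝ H) (Q₀ : E →ₗᵢ[ℝ] H) :
    ∫⁻ y, Psi b Q₀.toContinuousLinearMap y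
      ≤ (∫⁻ p : PiLp 2 (fun _ : ι => E), gw p) * volume (ball (0 : E) 1) := sorry

omit [FiniteDimensional ℝ H] in
theorem lintegral_gw_pos : 0 < ∫⁻ p : PiLp 2 (fun _ : ι => E), gw p := sorry

omit [FiniteDimensional ℝ H] in
theorem lintegral_gw_lt_top : ∫⁻ p : PiLp 2 (fun _ : ι => E), gw p < ⊤ := sorry

/-! ### HO-15: a projection which identifies two points -/

omit [MeasurableSpace E] [BorelSpace E] in
theorem exists_proj (b : OrthonormalBasis ι ℝ H) (D₁ D₂ : E →L[ℝ] H) (hD₁ : Function.Injective D₁)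
    (hD₂ : Function.Injective D₂) (h : H) (h1 : h ∉ range D₁) (h2 : h ∉ range D₂) :
    ∃ p : PiLp 2 (fun _ : ι => E), act b p h = 0 ∧ (act b p ∘L D₁).det ≠ 0 ∧
      (act b p ∘L D₂).det ≠ 0 := sorry

/-! ### HO-16: local surjectivity, uniformly in the projection -/

omit [MeasurableSpace E] [BorelSpace E] in
theorem eventually_covers (b : OrthonormalBasis ι ℝ H) {g : E → H} {x : E}
    (hg : ContDiffAt ℝ 1 g x) (p₀ : PiLp 2 (fun _ : ι => E))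
    (hdet : (act b p₀ ∘L fderiv ℝ g x).det ≠ 0) {U : Set E} (hU : U ∈ 𝓝 x) :
    ∀ᶠ q : PiLp 2 (fun _ : ι => E) × E in 𝓝 (p₀, act b p₀ (g x)),
      ∃ y ∈ U, act b q.1 (g y) = q.2 := sorry

/-! ### HO-17: the Crofton inequality for odd maps (uses HO-6 ... HO-14) -/

theorem crofton_ge [Nontrivial E] {g : E → H} {R : ℝ} (hR : 0 < R) (hg : OddMap g R)
    (Q₀ : E →ₗᵢ[ℝ] H) :
    ENNReal.ofReal (R ^ finrank ℝ E) * (volume : Measure E).toSphere univ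
      ≤ ∫⁻ u : sphere (0 : E) 1, ENNReal.ofReal (Jac (fderiv ℝ g u))
            ∂(volume : Measure E).toSphere := sorry

/-! ### HO-18: the equality case (uses HO-6 ... HO-16) -/

theorem crofton_gt [Nontrivial E] {g : E → H} {R : ℝ} (hR : 0 < R) (hg : OddMap g R)
    (Q₀ : E →ₗᵢ[ℝ] H) (hfin : ∫⁻ u : sphere (0 : E) 1, ENNReal.ofReal (Jac (fderiv ℝ g u))
            ∂(volume : Measure E).toSphere ≠ ⊤) {x₁ x₂ : E} (hx₁ : ‖x₁‖ = 1) (hx₂ : ‖x₂‖ = 1)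
    (hi₁ : Function.Injective (fderiv ℝ g x₁)) (hi₂ : Function.Injective (fderiv ℝ g x₂))
    (h1 : g x₂ ∉ range (fderiv ℝ g x₁)) (h2 : g x₁ ∉ range (fderiv ℝ g x₂)) :
    ENNReal.ofReal (R ^ finrank ℝ E) * (volume : Measure E).toSphere univ
      < ∫⁻ u : sphere (0 : E) 1, ENNReal.ofReal (Jac (fderiv ℝ g u))
            ∂(volume : Measure E).toSphere := sorry

end Crofton

/-! ## Part V: vector fields -/

section Field

variable {E : Type*} [NormedAddCommGroup E] [InnerProductSpace ℝ E] [FiniteDimensional ℝ E]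

/-! ### HO-19: linearity from the dichotomy -/

omit [FiniteDimensional ℝ E] in
theorem linear_of_cover {w : E → E} (hw : ContDiffOn ℝ 1 w {0}ᶜ)
    (hom : ∀ (y : E) (t : ℝ), 0 < t → w (t • y) = t • w y)
    (hc : ∀ x₁ x₂ : E, ‖x₁‖ = 1 → ‖x₂‖ = 1 →
      fderiv ℝ w x₁ x₂ = w x₂ ∨ fderiv ℝ w x₂ x₁ = w x₁) :
    ∃ L : E →L[ℝ] E, ∀ y, w y = L y := sorry

/-! ### HO-20: pointwise determinant -/

theorem sqrt_det_le {A T : E →L[ℝ] E} {x w : E} {r : ℝ} (hx : ‖x‖ = 1) (hw : ‖w‖ = r)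
    (hxw : ⟪x, w⟫ = 0) (hAx : A x = 0) (h1 : ∀ δ, ⟪x, A δ⟫ = 0) (h2 : ∀ δ, ⟪w, A δ⟫ = 0)
    (hT : ∀ δ, T δ = A δ + ⟪x, δ⟫ • w - ⟪w, δ⟫ • x) :
    √((1 + T.adjoint ∘L T).det) ≤ (1 + r ^ 2) * √((1 + A.adjoint ∘L A).det) := sorry

theorem sqrt_det_eq {A T : E →L[ℝ] E} {x w : E} {r : ℝ} (hx : ‖x‖ = 1) (hw : ‖w‖ = r)
    (hxw : ⟪x, w⟫ = 0) (hAx : A x = 0) (h1 : ∀ δ, ⟪x, A δ⟫ = 0) (h2 : ∀ δ, ⟪w, A δ⟫ = 0)
    (hT : ∀ δ, T δ = A δ + ⟪x, δ⟫ • w - ⟪w, δ⟫ • x) (hAw : A w = 0) :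
    √((1 + T.adjoint ∘L T).det) = (1 + r ^ 2) * √((1 + A.adjoint ∘L A).det) := sorry

/-! ### HO-21: the homogeneous extension -/

theorem contDiffOn_hext {k : ℕ} [Fact (finrank ℝ E = k + 1)] {W : sphere (0 : E) 1 → E}
    (hW : ContMDiff (𝓡 k) 𝓘(ℝ, E) 1 W) : ContDiffOn ℝ 1 (hext W) {0}ᶜ := sorry

omit [FiniteDimensional ℝ E] in
theorem hext_coe (W : sphere (0 : E) 1 → E) (x : sphere (0 : E) 1) : hext W x = W x := sorry

omit [FiniteDimensional ℝ E] in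
theorem hext_homog (W : sphere (0 : E) 1 → E) (y : E) (t : ℝ) (ht : 0 < t) :
    hext W (t • y) = t • hext W y := sorry

omit [FiniteDimensional ℝ E] in
theorem hext_odd {W : sphere (0 : E) 1 → E} (hodd : ∀ x, W (-x) = -W x) (y : E) :
    hext W (-y) = -hext W y := sorry

omit [FiniteDimensional ℝ E] in
theorem norm_hext {W : sphere (0 : E) 1 → E} {r : ℝ} (hn : ∀ x, ‖W x‖ = r) (y : E) :
    ‖hext W y‖ = r * ‖y‖ := sorry

omit [FiniteDimensional ℝ E] in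
theorem inner_hext {W : sphere (0 : E) 1 → E} (ht : ∀ x : sphere (0 : E) 1, ⟪(x : E), W x⟫ = 0)
    (y : E) : ⟪y, hext W y⟫ = 0 := sorry

/-! ### HO-22: the derivative of the extension and the covariant derivative -/

theorem fderiv_hext_apply {k : ℕ} [Fact (finrank ℝ E = k + 1)] {W : sphere (0 : E) 1 → E}
    (hW : ContMDiff (𝓡 k) 𝓘(ℝ, E) 1 W) (ht : ∀ x : sphere (0 : E) 1, ⟪(x : E), W x⟫ = 0)
    (x : sphere (0 : E) 1) (δ : E) :
    fderiv ℝ (hext W) x δ = covDeriv W x δ + ⟪(x : E), δ⟫ • W x - ⟪W x, δ⟫ • (x : E) := sorry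

theorem covDeriv_self {k : ℕ} [Fact (finrank ℝ E = k + 1)] {W : sphere (0 : E) 1 → E}
    (hW : ContMDiff (𝓡 k) 𝓘(ℝ, E) 1 W) (x : sphere (0 : E) 1) : covDeriv W x (x : E) = 0 := sorry

omit [FiniteDimensional ℝ E] in
theorem inner_covDeriv (W : sphere (0 : E) 1 → E) (x : sphere (0 : E) 1) (δ : E) :
    ⟪(x : E), covDeriv W x δ⟫ = 0 := sorry

theorem inner_field_covDeriv {k : ℕ} [Fact (finrank ℝ E = k + 1)] {W : sphere (0 : E) 1 → E}
    (hW : ContMDiff (𝓡 k) 𝓘(ℝ, E) 1 W) (ht : ∀ x : sphere (0 : E) 1, ⟪(x : E), W x⟫ = 0) {r : ℝ}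
    (hn : ∀ x, ‖W x‖ = r) (x : sphere (0 : E) 1) (δ : E) : ⟪W x, covDeriv W x δ⟫ = 0 := sorry

/-! ### HO-23: the map `y ↦ (y, hext W y)` -/

theorem oddMap_gmap {k : ℕ} [Fact (finrank ℝ E = k + 1)] {W : sphere (0 : E) 1 → E}
    (hW : ContMDiff (𝓡 k) 𝓘(ℝ, E) 1 W) (hodd : ∀ x, W (-x) = -W x) {r : ℝ}
    (hn : ∀ x, ‖W x‖ = r) : OddMap (gmap W) √(1 + r ^ 2) := sorry

theorem fderiv_gmap {k : ℕ} [Fact (finrank ℝ E = k + 1)] {W : sphere (0 : E) 1 → E}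
    (hW : ContMDiff (𝓡 k) 𝓘(ℝ, E) 1 W) {y : E} (hy : y ≠ 0) (δ : E) :
    fderiv ℝ (gmap W) y δ = WithLp.toLp 2 (δ, fderiv ℝ (hext W) y δ) := sorry

theorem Jac_gmap {k : ℕ} [Fact (finrank ℝ E = k + 1)] {W : sphere (0 : E) 1 → E}
    (hW : ContMDiff (𝓡 k) 𝓘(ℝ, E) 1 W) {y : E} (hy : y ≠ 0) :
    Jac (fderiv ℝ (gmap W) y)
      = √((1 + (fderiv ℝ (hext W) y).adjoint ∘L fderiv ℝ (hext W) y).det) := sorry

/-! ### HO-24: geodesic fields are odd (uses HO-21, HO-22) -/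

theorem odd_of_geodesic {k : ℕ} [Fact (finrank ℝ E = k + 1)] {W : sphere (0 : E) 1 → E}
    (hW : ContMDiff (𝓡 k) 𝓘(ℝ, E) 1 W) (ht : ∀ x : sphere (0 : E) 1, ⟪(x : E), W x⟫ = 0) {r : ℝ}
    (hr : 0 < r) (hn : ∀ x, ‖W x‖ = r) (hg : ∀ x : sphere (0 : E) 1, covDeriv W x (W x) = 0)
    (x : sphere (0 : E) 1) : W (-x) = -W x := sorry

/-! ### HO-25: volume of the Hopf fields (uses HO-20, HO-22) -/

theorem volume_hopf [MeasurableSpace E] [BorelSpace E] (m : ℕ) (hfr : finrank ℝ E = 2 * m + 2)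
    {J : E →L[ℝ] E} (hJ : ∀ x y, ⟪J x, J y⟫ = ⟪x, y⟫) (hJJ : ∀ x, J (J x) = -x) {r : ℝ} (hr : 0 < r) :
    ∫ x : sphere (0 : E) 1, √((1 + (covDeriv (fun y : sphere (0 : E) 1 => r • J y) x).adjoint ∘L
        covDeriv (fun y : sphere (0 : E) 1 => r • J y) x).det) ∂(volume : Measure E).toSphere
      = (1 + r ^ 2) ^ m * (volume : Measure E).toSphere.real univ := sorry

end Field

end Pool.Agent.Helper19.HO.Spec
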